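import Pool.Agent.H72.GP.Targets
import Pool.Agent.H94.PSV.PL1

/-! ONE: a nonzero stable module contains a nonzero multiple of `1` (port of
`Pool.Agent.H12.PSV.pf_ONE`). -/

set_option autoImplicit false

open Polynomial Finset
open Pool.Agent.H72.GP
open Pool.Agent.H85.PS (II MM Vec Sup Deg Jf Typ Maj Tay)

namespace Pool.Agent.H67.GPO

lemma sum_add_single {s : ℕ} (e : Fin s → ℕ) (k : Fin s) :
    ∑ j, (e + Pi.single k 1 : Fin s → ℕ) j = ∑ j, e j + 1 := by
  simp [Finset.sum_add_distrib]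

theorem pf_ONE (_hLEI : T_LEI) : T_ONE := by
  classical
  have h2 : Pool.Agent.H85.PS.T_PL1 := Pool.Agent.H94.PSV.pf_PL1
  intro s D S hI W hS hst hW
  obtain ⟨w₀, hw₀, hw₀0⟩ := Submodule.exists_mem_ne_zero_of_ne_bot hW
  -- minimal degree
  have hP : ∃ t : ℕ, ∃ w ∈ W, w ≠ 0 ∧ ∀ e, t < ∑ k, e k → w e = 0 :=
    ⟨D, w₀, hw₀, hw₀0, hS w₀ hw₀⟩
  obtain ⟨t, ht, htmin⟩ : ∃ t : ℕ, (∃ w ∈ W, w ≠ 0 ∧ ∀ e, t < ∑ k, e k → w e = 0) ∧
      ∀ t' < t, ¬ ∃ w ∈ W, w ≠ 0 ∧ ∀ e, t' < ∑ k, e k → w e = 0 :=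
    ⟨Nat.find hP, Nat.find_spec hP, fun t' h => Nat.find_min hP h⟩
  let num : Vec s → ℕ := fun w => ((II s D).filter (fun e => ∑ k, e k = t ∧ w e ≠ 0)).card
  have hQ : ∃ n : ℕ, ∃ w ∈ W, w ≠ 0 ∧ (∀ e, t < ∑ k, e k → w e = 0) ∧ num w = n := by
    obtain ⟨w, hw, hw0, hwt⟩ := ht
    exact ⟨_, w, hw, hw0, hwt, rfl⟩
  obtain ⟨n, ⟨w, hw, hw0, hwt, hwn⟩, hnmin⟩ : ∃ n : ℕ,
      (∃ w ∈ W, w ≠ 0 ∧ (∀ e, t < ∑ k, e k → w e = 0) ∧ num w = n) ∧
      ∀ n' < n, ¬ ∃ w ∈ W, w ≠ 0 ∧ (∀ e, t < ∑ k, e k → w e = 0) ∧ num w = n' :=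
    ⟨Nat.find hQ, Nat.find_spec hQ, fun t' h => Nat.find_min hQ h⟩
  -- a nonzero coefficient of top degree
  obtain ⟨e0, he0t, he0⟩ : ∃ e0 : Fin s → ℕ, ∑ k, e0 k = t ∧ w e0 ≠ 0 := by
    by_contra hcon
    push Not at hcon
    rcases Nat.eq_zero_or_pos t with h0 | h0
    · apply hw0
      funext e
      rcases Nat.eq_zero_or_pos (∑ k, e k) with h | h
      · exact hcon e (by omega)
      · exact hwt e (by omega)
    · refine htmin (t - 1) (by omega) ⟨w, hw, hw0, fun e he => ?_⟩
      rcases Nat.lt_or_ge t (∑ k, e k) with h | h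
      · exact hwt e h
      · exact hcon e (by omega)
  set a := w e0 with ha
  -- the combination
  let u : Vec s := a • nab S w - (S.th * derivative a) • w
  have hu : u ∈ W := sub_mem (W.smul_mem _ (hst w hw)) (W.smul_mem _ hw)
  have hue : ∀ e, u e = a * nab S w e - S.th * derivative a * w e := fun e => rfl
  have hnab : ∀ e, t ≤ ∑ k, e k → nab S w e = S.th * derivative (w e) := by
    intro e he
    unfold nab
    have : ∀ k, w (e + Pi.single k 1) = 0 := by
      intro k
      apply hwt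
      rw [sum_add_single]
      omega
    simp [this]
  have hu1 : ∀ e, t < ∑ k, e k → u e = 0 := by
    intro e he
    rw [hue, hnab e he.le, hwt e he]
    simp
  have hu2 : ∀ e, ∑ k, e k = t → w e = 0 → u e = 0 := by
    intro e he hwe
    rw [hue, hnab e he.ge, hwe]
    simp
  have hu3 : u e0 = 0 := by
    rw [hue, hnab e0 he0t.ge, ← ha]
    ring
  have hu0 : u = 0 := by
    by_contra hne
    refine hnmin (num u) ?_ ⟨u, hu, hne, hu1, rfl⟩
    rw [← hwn]
    apply Finset.card_lt_card
    rw [Finset.ssubset_iff_of_subset]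
    · refine ⟨e0, ?_, ?_⟩
      · rw [Finset.mem_filter]
        refine ⟨?_, he0t, he0⟩
        by_contra hcon
        apply he0
        apply hS w hw
        by_contra hle
        apply hcon
        unfold II
        rw [Finset.mem_filter]
        refine ⟨?_, by omega⟩
        rw [Fintype.mem_piFinset]
        intro k
        rw [Finset.mem_range]
        have : e0 k ≤ ∑ k, e0 k := Finset.single_le_sum (fun _ _ => Nat.zero_le _) (mem_univ k)
        omega
      · rw [Finset.mem_filter]
        rintro ⟨-, -, h⟩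
        exact h hu3
    · intro e he
      rw [Finset.mem_filter] at he ⊢
      refine ⟨he.1, he.2.1, fun h => he.2.2 (hu2 e he.2.1 h)⟩
  have hth : S.th ≠ 0 := hI.1
  -- proportionality in top degree
  have hprop : ∀ e, ∑ k, e k = t → ∃ c : ℚ, w e = C c * a := by
    intro e he
    have h4 : u e = 0 := by rw [hu0]; rfl
    rw [hue, hnab e he.ge] at h4
    apply h2 a (w e) he0
    have h5 : S.th * (a * derivative (w e) - derivative a * w e) = 0 := by
      rw [← h4]; ring
    rcases mul_eq_zero.1 h5 with h6 | h6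
    · exact absurd h6 hth
    · exact sub_eq_zero.1 h6
  rcases Nat.eq_zero_or_pos t with h0 | h0
  · -- degree zero
    have he00 : e0 = 0 := by
      funext k
      have : e0 k ≤ ∑ k, e0 k := Finset.single_le_sum (fun _ _ => Nat.zero_le _) (mem_univ k)
      have h6 : e0 k = 0 := by omega
      exact h6
    refine ⟨a, he0, ?_⟩
    have h7 : (fun e : Fin s → ℕ => if e = 0 then a else 0) = w := by
      funext e
      by_cases he : e = 0
      · rw [if_pos he, he, ha, he00]
      · rw [if_neg he]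
        symm
        apply hwt
        rw [h0]
        by_contra hcon
        apply he
        funext k
        have : e k ≤ ∑ k, e k := Finset.single_le_sum (fun _ _ => Nat.zero_le _) (mem_univ k)
        have h6 : e k = 0 := by omega
        exact h6
    rw [h7]
    exact hw
  · -- positive degree is impossible
    exfalso
    obtain ⟨k, -, hk⟩ : ∃ k ∈ (univ : Finset (Fin s)), e0 k ≠ 0 := by
      apply Finset.exists_ne_zero_of_sum_ne_zero
      omega
    let e1 : Fin s → ℕ := fun j => if j = k then e0 k - 1 else e0 j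
    have he1 : e1 + Pi.single k 1 = e0 := by
      funext j
      by_cases hj : j = k
      · subst hj
        simp only [Pi.add_apply, Pi.single_eq_same, e1, if_true]
        omega
      · simp [e1, hj]
    have he1t : ∑ j, e1 j + 1 = t := by
      rw [← sum_add_single e1 k, he1, he0t]
    have hc : ∀ j, ∃ c : ℚ, w (e1 + Pi.single j 1) = C c * a := by
      intro j
      apply hprop
      rw [sum_add_single, he1t]
    choose c hc using hc
    have h4 : u e1 = 0 := by rw [hu0]; rfl
    rw [hue] at h4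
    have h5 : nab S w e1 = S.th * derivative (w e1) +
        ∑ j, S.pk j * ((e1 j + 1 : ℕ) : ℚ[X]) * (C (c j) * a) := by
      unfold nab
      congr 1
      refine Finset.sum_congr rfl fun j _ => ?_
      rw [hc j]
    rw [h5] at h4
    have h6 : S.th * (a * derivative (w e1) - derivative a * w e1) =
        a ^ 2 * ∑ j, C (-((e1 j + 1 : ℕ) : ℚ) * c j) * S.pk j := by
      have h7 : a ^ 2 * ∑ j, C (-((e1 j + 1 : ℕ) : ℚ) * c j) * S.pk j =
          - (a * ∑ j, S.pk j * ((e1 j + 1 : ℕ) : ℚ[X]) * (C (c j) * a)) := by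
        rw [Finset.mul_sum, Finset.mul_sum, ← Finset.sum_neg_distrib]
        refine Finset.sum_congr rfl fun j _ => ?_
        rw [C_mul, C_neg, C_eq_natCast]
        ring
      rw [h7]
      linear_combination h4
    have h8 := hI.2 a (w e1) (fun j => -((e1 j + 1 : ℕ) : ℚ) * c j) he0 h6 k
    have h9 : c k = 0 := by
      rcases mul_eq_zero.1 h8 with h | h
      · exfalso
        have h10 : ((e1 k + 1 : ℕ) : ℚ) = 0 := neg_eq_zero.1 h
        have h11 : (e1 k + 1 : ℕ) = 0 := by exact_mod_cast h10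
        omega
      · exact h
    have h10 := hc k
    rw [he1, h9, C_0, zero_mul] at h10
    exact he0 h10

end Pool.Agent.H67.GPO
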