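import Pool.Agent.H72.GP.Targets

/-! VAN: vanishing at zero (port of `Pool.Agent.H94.PSV.pf_VAN`). -/

set_option autoImplicit false

open Polynomial Finset
open Pool.Agent.H72.GP
open Pool.Agent.H85.PS (II MM Vec Sup Deg Jf Typ Maj Tay)

namespace Pool.Agent.H67.GPO

theorem pf_VAN (hTAR : T_TAR) : T_VAN := by
  intro s D T F f A hF hT hX j hj
  -- the local expansions without constant term
  have hc : ∀ k, F k 0 = algebraMap ℚ ℂ (PowerSeries.constantCoeff (f k)) := by
    intro k
    have h1 := congrArg (PowerSeries.coeff 0) (hT k)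
    unfold Tay at h1
    rw [PowerSeries.coeff_mk, PowerSeries.coeff_map] at h1
    simpa using h1
  have hk : ∀ k, PowerSeries.C (F k (((0 : ℚ)) : ℂ)) + PowerSeries.map (algebraMap ℚ ℂ)
      (f k - PowerSeries.C (PowerSeries.constantCoeff (f k))) =
      PowerSeries.map (algebraMap ℚ ℂ) (f k) := by
    intro k
    rw [map_sub, PowerSeries.map_C, Rat.cast_zero, hc k]
    ring
  have h2 := hTAR s D F 0 (fun k => f k - PowerSeries.C (PowerSeries.constantCoeff (f k))) A
    (fun k => by rw [Rat.cast_zero]; exact hF k)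
    (fun k => by rw [hk k, Rat.cast_zero]; exact hT k)
  have h3 : Tay (((0 : ℚ)) : ℂ) (RR F D A) = PowerSeries.map (algebraMap ℚ ℂ) (evf f D A) := by
    rw [h2]
    unfold evf
    rw [map_sum]
    refine Finset.sum_congr rfl fun e _ => ?_
    rw [map_mul, map_prod, taylor_zero]
    congr 1
    refine Finset.prod_congr rfl fun k _ => ?_
    rw [map_pow, hk k]
  have h4 : PowerSeries.coeff j (Tay (((0 : ℚ)) : ℂ) (RR F D A)) = 0 := by
    rw [h3, PowerSeries.coeff_map, PowerSeries.X_pow_dvd_iff.1 hX j hj, map_zero]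
  unfold Tay at h4
  rw [PowerSeries.coeff_mk, Rat.cast_zero] at h4
  rcases div_eq_zero_iff.1 h4 with h5 | h5
  · exact h5
  · exact absurd h5 (by exact_mod_cast j.factorial_ne_zero)

end Pool.Agent.H67.GPO
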